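import Pool.Agent.Lib.MP_70cc9d.Main

/-!
# Generators of the Schur multiplier of the Haefliger group

The Haefliger group `Γ` is given by its standard presentation: generators are the real-analytic
orientation preserving local diffeomorphisms of the line defined on bounded open intervals,
relations are restriction and composition.

For every surjection `π : F → Γ` (for example a free presentation, when Hopf's formula identifies
`(ker π ∩ [F, F]) / [ker π, F]` with `H₂(Γ; ℤ)`), the group `ker π ∩ [F, F]` is generated modulo
`[ker π, F]` by the torus elements and by the genus two elements `⁅a, b⁆ ⁅c, d⁆⁻¹` where `a`, `c`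
are lifts of the dilations by `l` and `l²`, and `b`, `d` are lifts of germs of local
diffeomorphisms fixing `0` which are tangent to the identity to the order `n`, are defined on
`(-R, R)` and are `ε`-close to the identity there.
-/

open Set Filter Topology
open scoped commutatorElement

namespace Pool.Agent.Results.MP_70cc9d_gt.GenusTwoGenerators

open MP70cc9d

theorem result (n : ℕ) (hn : 1 ≤ n) (R ε l : ℝ) (hR : 0 < R) (hε : 0 < ε) (hl : 0 < l)
    (hl1 : l < 1) (F : Type) [Group F] (π : F →* HGroup) (hπ : Function.Surjective π) :
    π.ker ⊓ commutator F = ⁅π.ker, (⊤ : Subgroup F)⁆ ⊔ Subgroup.closure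
      ({x | ∃ a b, Commute (π a) (π b) ∧ x = ⁅a, b⁆} ∪
       {x | ∃ a b c d, π a = cls (dil l hl) ∧ π c = cls (dil (l * l) (mul_pos hl hl)) ∧
          π b ∈ flat n R ε ∧ π d ∈ flat n R ε ∧ ⁅π a, π b⁆ = ⁅π c, π d⁆ ∧
          x = ⁅a, b⁆ * ⁅c, d⁆⁻¹}) :=
  main π hπ hn hR hε hl hl1

end Pool.Agent.Results.MP_70cc9d_gt.GenusTwoGenerators
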